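import Mathlib

/-!
# MP_0a2dc5_al: subgroup lattices of abelian groups that do not embed into subspace lattices

For `m ≥ 2`, the subgroup lattice of `(ZMod m)^3` has a lattice embedding into the lattice of
subspaces of a vector space over some division ring if and only if `m` is prime.  In particular the
finite abelian group `(Z/4)^3` is an example for Q1 and Q2.
-/

namespace Pool.Agent.Results.MP_0a2dc5_al.Frames

universe u v

/-- `Embeds A D V`: there is a lattice embedding (an injective map preserving binary joins and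
meets) of the lattice of subgroups of `A` into the lattice of `D`-subspaces of `V`. -/
def Embeds (A : Type) [AddCommGroup A] (D : Type u) [DivisionRing D]
    (V : Type v) [AddCommGroup V] [Module D V] : Prop :=
  ∃ f : AddSubgroup A → Submodule D V, Function.Injective f ∧
    (∀ x y, f (x ⊓ y) = f x ⊓ f y) ∧ (∀ x y, f (x ⊔ y) = f x ⊔ f y)

variable {m : ℕ}

/-- The subgroup generated by `e₀`. -/
def X0 (m : ℕ) : AddSubgroup (Fin 3 → ZMod m) where
  carrier := {v | v 1 = 0 ∧ v 2 = 0}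
  add_mem' := by
    intro a b ha hb
    simp only [Set.mem_ofPred_eq, Pi.add_apply] at *
    rw [ha.1, ha.2, hb.1, hb.2]; simp
  zero_mem' := by simp
  neg_mem' := by
    intro a ha
    simp only [Set.mem_ofPred_eq, Pi.neg_apply] at *
    rw [ha.1, ha.2]; simp

/-- The subgroup generated by `e₁`. -/
def X1 (m : ℕ) : AddSubgroup (Fin 3 → ZMod m) where
  carrier := {v | v 0 = 0 ∧ v 2 = 0}
  add_mem' := by
    intro a b ha hb
    simp only [Set.mem_ofPred_eq, Pi.add_apply] at *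
    rw [ha.1, ha.2, hb.1, hb.2]; simp
  zero_mem' := by simp
  neg_mem' := by
    intro a ha
    simp only [Set.mem_ofPred_eq, Pi.neg_apply] at *
    rw [ha.1, ha.2]; simp

/-- The subgroup generated by `e₂`. -/
def X2 (m : ℕ) : AddSubgroup (Fin 3 → ZMod m) where
  carrier := {v | v 0 = 0 ∧ v 1 = 0}
  add_mem' := by
    intro a b ha hb
    simp only [Set.mem_ofPred_eq, Pi.add_apply] at *
    rw [ha.1, ha.2, hb.1, hb.2]; simp
  zero_mem' := by simp
  neg_mem' := by
    intro a ha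
    simp only [Set.mem_ofPred_eq, Pi.neg_apply] at *
    rw [ha.1, ha.2]; simp

/-- The subgroup `{v | v 1 = - n * v 0, v 2 = 0}` generated by `e₀ - n e₁`. -/
def P (m n : ℕ) : AddSubgroup (Fin 3 → ZMod m) where
  carrier := {v | v 1 + n * v 0 = 0 ∧ v 2 = 0}
  add_mem' := by
    intro a b ha hb
    simp only [Set.mem_ofPred_eq, Pi.add_apply] at *
    refine ⟨?_, by rw [ha.2, hb.2]; simp⟩
    linear_combination ha.1 + hb.1
  zero_mem' := by simp
  neg_mem' := by
    intro a ha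
    simp only [Set.mem_ofPred_eq, Pi.neg_apply] at *
    refine ⟨?_, by rw [ha.2]; simp⟩
    linear_combination -ha.1

/-- The subgroup generated by `e₁ - e₂`. -/
def C12 (m : ℕ) : AddSubgroup (Fin 3 → ZMod m) where
  carrier := {v | v 0 = 0 ∧ v 1 + v 2 = 0}
  add_mem' := by
    intro a b ha hb
    simp only [Set.mem_ofPred_eq, Pi.add_apply] at *
    refine ⟨by rw [ha.1, hb.1]; simp, ?_⟩
    linear_combination ha.2 + hb.2
  zero_mem' := by simp
  neg_mem' := by
    intro a ha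
    simp only [Set.mem_ofPred_eq, Pi.neg_apply] at *
    refine ⟨by rw [ha.1]; simp, ?_⟩
    linear_combination -ha.2

/-- The subgroup generated by `e₀ - e₂`. -/
def C02 (m : ℕ) : AddSubgroup (Fin 3 → ZMod m) where
  carrier := {v | v 1 = 0 ∧ v 0 + v 2 = 0}
  add_mem' := by
    intro a b ha hb
    simp only [Set.mem_ofPred_eq, Pi.add_apply] at *
    refine ⟨by rw [ha.1, hb.1]; simp, ?_⟩
    linear_combination ha.2 + hb.2
  zero_mem' := by simp
  neg_mem' := by
    intro a ha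
    simp only [Set.mem_ofPred_eq, Pi.neg_apply] at *
    refine ⟨by rw [ha.1]; simp, ?_⟩
    linear_combination -ha.2

lemma mem_X0 {v : Fin 3 → ZMod m} : v ∈ X0 m ↔ v 1 = 0 ∧ v 2 = 0 := Iff.rfl
lemma mem_X1 {v : Fin 3 → ZMod m} : v ∈ X1 m ↔ v 0 = 0 ∧ v 2 = 0 := Iff.rfl
lemma mem_X2 {v : Fin 3 → ZMod m} : v ∈ X2 m ↔ v 0 = 0 ∧ v 1 = 0 := Iff.rfl
lemma mem_P {n : ℕ} {v : Fin 3 → ZMod m} : v ∈ P m n ↔ v 1 + n * v 0 = 0 ∧ v 2 = 0 := Iff.rfl
lemma mem_C12 {v : Fin 3 → ZMod m} : v ∈ C12 m ↔ v 0 = 0 ∧ v 1 + v 2 = 0 := Iff.rfl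
lemma mem_C02 {v : Fin 3 → ZMod m} : v ∈ C02 m ↔ v 1 = 0 ∧ v 0 + v 2 = 0 := Iff.rfl

/-- `e₀` is a sum of an element of `⟨e₁⟩` and one of `⟨e₀ - e₁⟩`. -/
lemma le_a : X0 m ≤ X1 m ⊔ P m 1 := by
  intro v hv
  rw [mem_X0] at hv
  rw [AddSubgroup.mem_sup]
  refine ⟨![0, v 0, 0], ?_, ![v 0, - v 0, 0], ?_, ?_⟩
  · simp [mem_X1]
  · simp [mem_P]
  · ext i; fin_cases i <;> simp [hv.1, hv.2]

lemma le_b : X1 m ≤ X2 m ⊔ C12 m := by
  intro v hv
  rw [mem_X1] at hv
  rw [AddSubgroup.mem_sup]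
  refine ⟨![0, 0, v 1], ?_, ![0, v 1, - v 1], ?_, ?_⟩
  · simp [mem_X2]
  · simp [mem_C12]
  · ext i; fin_cases i <;> simp [hv.1, hv.2]

lemma le_c : X1 m ≤ X0 m ⊔ P m 1 := by
  intro v hv
  rw [mem_X1] at hv
  rw [AddSubgroup.mem_sup]
  refine ⟨![v 1, 0, 0], ?_, ![- v 1, v 1, 0], ?_, ?_⟩
  · simp [mem_X0]
  · simp [mem_P]
  · ext i; fin_cases i <;> simp [hv.1, hv.2]

lemma le_d : (P m 1 ⊔ C12 m) ⊓ (X0 m ⊔ X2 m) ≤ C02 m := by
  intro v hv
  rw [AddSubgroup.mem_inf, AddSubgroup.mem_sup, AddSubgroup.mem_sup] at hv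
  obtain ⟨⟨a, ha, b, hb, hab⟩, ⟨c, hc, d, hd, hcd⟩⟩ := hv
  rw [mem_P] at ha
  rw [mem_C12] at hb
  rw [mem_X0] at hc
  rw [mem_X2] at hd
  have h1 : v 1 = 0 := by rw [← hcd]; simp [hc.1, hd.2]
  refine mem_C02.2 ⟨h1, ?_⟩
  have h0 : v 0 = a 0 + b 0 := by rw [← hab]; rfl
  have h1' : v 1 = a 1 + b 1 := by rw [← hab]; rfl
  have h2 : v 2 = a 2 + b 2 := by rw [← hab]; rfl
  have ha1 : a 1 + a 0 = 0 := by simpa using ha.1
  linear_combination h0 + h2 + ha1 + hb.1 + ha.2 + hb.2 + h1' - h1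

/-- The inductive step: adding one. -/
lemma le_e (n : ℕ) :
    ((((P m n ⊔ X2 m) ⊓ (C02 m ⊔ X1 m)) ⊔ C12 m) ⊓ (X0 m ⊔ X1 m)) ≤ P m (n + 1) := by
  intro v hv
  rw [AddSubgroup.mem_inf, AddSubgroup.mem_sup, AddSubgroup.mem_sup] at hv
  obtain ⟨⟨q, hq, c, hc, hqc⟩, ⟨x, hx, y, hy, hxy⟩⟩ := hv
  rw [AddSubgroup.mem_inf, AddSubgroup.mem_sup, AddSubgroup.mem_sup] at hq
  obtain ⟨⟨a, ha, b, hb, hab⟩, ⟨a', ha', b', hb', hab'⟩⟩ := hq
  rw [mem_P] at ha
  rw [mem_X2] at hb
  rw [mem_C02] at ha'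
  rw [mem_X1] at hb'
  rw [mem_C12] at hc
  rw [mem_X0] at hx
  rw [mem_X1] at hy
  have hv2 : v 2 = 0 := by rw [← hxy]; simp [hx.2, hy.2]
  refine mem_P.2 ⟨?_, hv2⟩
  have q0 : q 0 = a 0 + b 0 := by rw [← hab]; rfl
  have q1 : q 1 = a 1 + b 1 := by rw [← hab]; rfl
  have q0' : q 0 = a' 0 + b' 0 := by rw [← hab']; rfl
  have q2' : q 2 = a' 2 + b' 2 := by rw [← hab']; rfl
  have v0 : v 0 = q 0 + c 0 := by rw [← hqc]; rfl
  have v1 : v 1 = q 1 + c 1 := by rw [← hqc]; rfl
  have v2 : v 2 = q 2 + c 2 := by rw [← hqc]; rfl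
  have e1 : q 1 + n * q 0 = 0 := by
    linear_combination q1 + n * q0 + ha.1 + hb.2 + n * hb.1
  have e2 : q 0 + q 2 = 0 := by
    linear_combination q0' + q2' + ha'.2 + hb'.1 + hb'.2
  push_cast
  linear_combination v1 + (n + 1) * v0 + e1 + e2 + hc.2 + (n + 1) * hc.1 + v2 - hv2

variable {D : Type u} [DivisionRing D] {V : Type v} [AddCommGroup V] [Module D V]

/-- If the subgroup lattice of `(ZMod m)^3` (`m ≥ 2`) embeds, then `m` is prime. -/
theorem prime_of_embeds (hm : 2 ≤ m) (h : Embeds (Fin 3 → ZMod m) D V) : m.Prime := by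
  obtain ⟨f, hf, hinf, hsup⟩ := h
  have : Fact (1 < m) := ⟨by omega⟩
  have mono : ∀ {x y : AddSubgroup (Fin 3 → ZMod m)}, x ≤ y → f x ≤ f y := by
    intro x y hxy
    have : f y = f x ⊔ f y := by rw [← hsup, sup_eq_right.2 hxy]
    rw [this]; exact le_sup_left
  have refl : ∀ {x y : AddSubgroup (Fin 3 → ZMod m)}, f x ≤ f y → x ≤ y := by
    intro x y hxy
    have : f (x ⊔ y) = f y := by rw [hsup, sup_eq_right.2 hxy]
    exact sup_eq_right.1 (hf this)
  -- basic elements
  have hb : ∀ x ∈ f (X0 m), ∀ y ∈ f (X1 m), x - y ∈ f (P m 1) →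
      ∀ n : ℕ, x - n • y ∈ f (P m n) := by
    intro x hx y hy hxy
    -- z with y - z in C12
    have hy' := mono (le_b (m := m)) hy
    rw [hsup, Submodule.mem_sup] at hy'
    obtain ⟨z, hz, c, hc, hzc⟩ := hy'
    have hyz : y - z ∈ f (C12 m) := by rw [← hzc]; simpa using hc
    have hxz : x - z ∈ f (C02 m) := by
      apply mono (le_d (m := m))
      rw [hinf, hsup, hsup, Submodule.mem_inf]
      refine ⟨?_, ?_⟩
      · have : x - z = (x - y) + (y - z) := by abel
        rw [this]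
        exact Submodule.add_mem_sup hxy hyz
      · rw [sub_eq_add_neg]
        exact Submodule.add_mem_sup hx ((f (X2 m)).neg_mem hz)
    intro n
    induction n with
    | zero =>
      have : X0 m ≤ P m 0 := by
        intro v hv
        rw [mem_X0] at hv
        exact mem_P.2 ⟨by simp [hv.1], hv.2⟩
      simpa using mono this hx
    | succ n ih =>
      apply mono (le_e (m := m) n)
      rw [hinf, hsup, hinf, hsup, hsup, hsup, Submodule.mem_inf]
      constructor
      · have hq : x - n • y - z ∈ (f (P m n) ⊔ f (X2 m)) ⊓ (f (C02 m) ⊔ f (X1 m)) := by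
          refine Submodule.mem_inf.2 ⟨?_, ?_⟩
          · rw [sub_eq_add_neg]
            exact Submodule.add_mem_sup ih ((f (X2 m)).neg_mem hz)
          · have : x - n • y - z = (x - z) + (-(n • y)) := by abel
            rw [this]
            exact Submodule.add_mem_sup hxz
              ((f (X1 m)).neg_mem (nsmul_mem hy n))
        have : x - (n + 1) • y = (x - n • y - z) + (-(y - z)) := by
          rw [succ_nsmul]; abel
        rw [this]
        exact Submodule.add_mem_sup hq ((f (C12 m)).neg_mem hyz)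
      · rw [sub_eq_add_neg]
        exact Submodule.add_mem_sup hx ((f (X1 m)).neg_mem (nsmul_mem hy (n + 1)))
  -- `m • y` lies in the bottom element, for every `y` in `f (X1 m)`
  have hbot : ∀ y ∈ f (X1 m), m • y ∈ f ⊥ := by
    intro y hy
    have hy' := mono (le_c (m := m)) hy
    rw [hsup, Submodule.mem_sup] at hy'
    obtain ⟨x, hx, c, hc, hxc⟩ := hy'
    have hxy : x - y ∈ f (P m 1) := by
      have : x - y = -c := by rw [← hxc]; abel
      rw [this]; exact (f (P m 1)).neg_mem hc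
    have h1 := hb x hx y hy hxy m
    have hP : P m m ≤ X0 m := by
      intro v hv
      rw [mem_P] at hv
      exact mem_X0.2 ⟨by simpa using hv.1, hv.2⟩
    have h2 : m • y ∈ f (X0 m) := by
      have := (f (X0 m)).sub_mem hx (mono hP h1)
      simpa using this
    have h3 : m • y ∈ f (X1 m) := nsmul_mem hy m
    have h4 : X0 m ⊓ X1 m = ⊥ := by
      rw [eq_bot_iff]
      intro v hv
      rw [AddSubgroup.mem_inf, mem_X0, mem_X1] at hv
      rw [AddSubgroup.mem_bot]
      ext i; fin_cases i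
      · exact hv.2.1
      · exact hv.1.1
      · exact hv.1.2
    rw [← h4, hinf]
    exact ⟨h2, h3⟩
  -- the characteristic of `D`
  have hmD : (m : D) = 0 := by
    by_contra hne
    have hle : f (X1 m) ≤ f ⊥ := by
      intro y hy
      have h1 := hbot y hy
      have h2 : (m : D) • y ∈ f ⊥ := by rwa [Nat.cast_smul_eq_nsmul D]
      have h3 := (f ⊥).smul_mem ((m : D)⁻¹) h2
      rwa [inv_smul_smul₀ hne] at h3
    have := refl hle
    have h4 : (![0, 1, 0] : Fin 3 → ZMod m) ∈ (⊥ : AddSubgroup (Fin 3 → ZMod m)) :=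
      this (by simp [mem_X1])
    rw [AddSubgroup.mem_bot] at h4
    have h5 := congrFun h4 1
    simp at h5
  obtain ⟨p, hp⟩ := CharP.exists D
  have hpm : p ∣ m := (CharP.cast_eq_zero_iff D p m).1 hmD
  have hp0 : p ≠ 0 := by
    rintro rfl
    have := Nat.eq_zero_of_zero_dvd hpm
    omega
  have hpp : p.Prime := (CharP.char_is_prime_or_zero D p).resolve_right hp0
  -- `⟨e₀⟩ ≤ ⟨e₀ - p e₁⟩`
  have hle : f (X0 m) ≤ f (P m p) := by
    intro x hx
    have hx' := mono (le_a (m := m)) hx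
    rw [hsup, Submodule.mem_sup] at hx'
    obtain ⟨y, hy, c, hc, hyc⟩ := hx'
    have hxy : x - y ∈ f (P m 1) := by rw [← hyc]; simpa using hc
    have h1 := hb x hx y hy hxy p
    have h2 : p • y = 0 := by
      rw [← Nat.cast_smul_eq_nsmul D, CharP.cast_eq_zero, zero_smul]
    rwa [h2, sub_zero] at h1
  have h6 := refl hle
  have h7 : (![1, 0, 0] : Fin 3 → ZMod m) ∈ P m p := h6 (by simp [mem_X0])
  rw [mem_P] at h7
  have h8 : ((p : ℕ) : ZMod m) = 0 := by simpa using h7.1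
  have h9 : m ∣ p := (ZMod.natCast_eq_zero_iff p m).1 h8
  have : m = p := Nat.dvd_antisymm h9 hpm
  rw [this]; exact hpp

/-- The subspace (over a copy of `ZMod p`) corresponding to a subgroup of `(ZMod p)^3`. -/
def toSub (p : ℕ) (H : AddSubgroup (Fin 3 → ZMod p)) :
    Submodule (ULift.{u} (ZMod p)) (ULift.{v} (Fin 3 → ZMod p)) where
  carrier := {x | x.down ∈ H}
  add_mem' := fun ha hb => H.add_mem ha hb
  zero_mem' := H.zero_mem
  smul_mem' := by
    intro c x hx
    have hx' : x.down ∈ H := hx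
    have h : c.down • x.down ∈ H := ZMod.smul_mem hx' c.down
    exact h

lemma mem_toSub {p : ℕ} {H : AddSubgroup (Fin 3 → ZMod p)}
    {x : ULift.{v} (Fin 3 → ZMod p)} : x ∈ toSub.{u, v} p H ↔ x.down ∈ H := Iff.rfl

/-- For a prime `p` the subgroup lattice of `(ZMod p)^3` is a subspace lattice. -/
theorem embeds_of_prime {p : ℕ} (hp : p.Prime) :
    ∃ (D : Type u) (_ : DivisionRing D) (V : Type v) (_ : AddCommGroup V) (_ : Module D V),
      Embeds (Fin 3 → ZMod p) D V := by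
  have : Fact p.Prime := ⟨hp⟩
  refine ⟨ULift.{u} (ZMod p), inferInstance, ULift.{v} (Fin 3 → ZMod p), inferInstance,
    inferInstance, toSub p, ?_, ?_, ?_⟩
  · intro H K hHK
    ext x
    have h1 : (ULift.up x : ULift.{v} (Fin 3 → ZMod p)) ∈ toSub.{u, v} p H ↔
      (ULift.up x : ULift.{v} (Fin 3 → ZMod p)) ∈ toSub.{u, v} p K := by rw [hHK]
    exact h1
  · intro H K
    ext x
    exact Iff.rfl
  · intro H K
    apply le_antisymm
    · intro x hx
      have hx' : x.down ∈ H ⊔ K := hx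
      rw [AddSubgroup.mem_sup] at hx'
      obtain ⟨a, ha, b, hb, hab⟩ := hx'
      rw [Submodule.mem_sup]
      refine ⟨ULift.up a, ha, ULift.up b, hb, ?_⟩
      apply ULift.down_injective
      exact hab
    · refine sup_le ?_ ?_
      · intro x hx
        exact (le_sup_left : H ≤ H ⊔ K) hx
      · intro x hx
        exact (le_sup_right : K ≤ H ⊔ K) hx

/-- **Main result.**  For `m ≥ 2` the (finite) subgroup lattice of the finite abelian group
`(Z/m)^3` has a lattice embedding into the subspace lattice of some vector space over some division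
ring if and only if `m` is prime.  In particular (`m = 4`) the finite group `(Z/4)^3` answers Q1 and
Q2 positively. -/
theorem result (m : ℕ) (hm : 2 ≤ m) :
    Finite (Fin 3 → ZMod m) ∧ Finite (AddSubgroup (Fin 3 → ZMod m)) ∧
    ((∃ (D : Type u) (_ : DivisionRing D) (V : Type v) (_ : AddCommGroup V) (_ : Module D V),
      Embeds (Fin 3 → ZMod m) D V) ↔ m.Prime) := by
  have : NeZero m := ⟨by omega⟩
  have h1 : Finite (Fin 3 → ZMod m) := inferInstance
  refine ⟨h1, ?_, ?_, embeds_of_prime⟩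
  · exact Finite.of_injective (fun H : AddSubgroup (Fin 3 → ZMod m) => (H : Set (Fin 3 → ZMod m)))
      SetLike.coe_injective
  · rintro ⟨D, _, V, _, _, h⟩
    exact prime_of_embeds hm h

end Pool.Agent.Results.MP_0a2dc5_al.Frames
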